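import Pool.Agent.H96.JCT.Stmts

/-!
Row HRE of the board jct: homotopy with fixed ends.
-/

set_option autoImplicit false

namespace Pool.JCT

open Complex Set Topology Filter

theorem hre_const (g : ℝ → ℂ) (hg : ContinuousOn g (Icc (0 : ℝ) 1))
    (h : ∀ τ ∈ Icc (0 : ℝ) 1, exp (g τ) = exp (g 0)) : g 0 = g 1 := by
  have hc : ContinuousOn (fun τ => g τ - g 0) (Icc (0 : ℝ) 1) := hg.sub continuousOn_const
  have hm : MapsTo (fun τ => g τ - g 0) (Icc (0 : ℝ) 1)
      ((AddSubgroup.zmultiples (2 * (Real.pi : ℂ) * I) : AddSubgroup ℂ) : Set ℂ) := by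
    intro τ hτ
    obtain ⟨n, hn⟩ := Complex.exp_eq_exp_iff_exists_int.1 (h τ hτ)
    refine AddSubgroup.mem_zmultiples_iff.2 ⟨n, ?_⟩
    show n • (2 * (Real.pi : ℂ) * I) = g τ - g 0
    rw [hn, zsmul_eq_mul]
    ring
  have h2 : DiscreteTopology
      ((AddSubgroup.zmultiples (2 * (Real.pi : ℂ) * I) : AddSubgroup ℂ) : Set ℂ) :=
    NormedSpace.discreteTopology_zmultiples (2 * (Real.pi : ℂ) * I)
  have h3 := isPreconnected_Icc.constant_of_mapsTo ⟨h2⟩ hc hm
    (left_mem_Icc.2 zero_le_one) (right_mem_Icc.2 zero_le_one)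
  have h4 : g 0 - g 0 = g 1 - g 0 := h3
  exact sub_left_injective h4

theorem hre_thm (h1 : ADD_S) (h2 : CTY_S) : HRE_S := by
  intro H a b p hH hoff hend
  have hHc : ∀ τ : ℝ, Continuous (H τ) := fun τ =>
    hH.comp (Continuous.prodMk continuous_const continuous_id)
  have hg : ContinuousOn (fun τ => inc (H τ) a b p) (Icc (0 : ℝ) 1) := by
    have h3 := h2 H (fun _ => p) a b 0 1 hH continuous_const
      (by rw [uIcc_of_le zero_le_one]; exact hoff)
    rwa [uIcc_of_le zero_le_one] at h3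
  refine hre_const (fun τ => inc (H τ) a b p) hg fun τ hτ => ?_
  have h5 := (h1 (H τ) p (hHc τ)).2.2.2 a b (hoff τ hτ)
  have h6 := (h1 (H 0) p (hHc 0)).2.2.2 a b (hoff 0 (left_mem_Icc.2 zero_le_one))
  show exp (inc (H τ) a b p) = exp (inc (H 0) a b p)
  rw [h5, h6, (hend τ hτ).1, (hend τ hτ).2]

end Pool.JCT
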